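import Pool.Agent.helper13.Dynamic
import Pool.Agent.helper13.Upper

/-!
# The order of magnitude of the lazy cop number of the hypercube

We prove `c_L(Q_n) = Θ(2^n / n^(3/2))`.

* Upper bound (`Pool.Agent.helper13.Upper`): cosets of a Hamming type map dominate every level of
  the cube with `O(2^n / n^(3/2))` cops; two such teams push the robber from level to level.
* Lower bound (`Pool.Agent.helper13.CubeIso`, `Abs`, `Static`, `Walk`, `Dynamic`): a Talagrand type
  isoperimetric inequality and a minimal cut argument give, for every placement of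
  `c 2^n / n^(3/2)` cops, a set containing most of the cube in which all small sets expand for long
  walks avoiding the neighbourhoods of the cops; a potential function argument shows that the robber
  can always move on inside such sets although the cops react.
-/

open Filter Asymptotics

namespace Pool.Agent.Results.MP_e22981_co.LazyCopOrder

open Pool.Agent.helper13.LazyCops

/-- The lazy cop number of the `n`-dimensional hypercube is of order `2^n / n^(3/2)`. -/
theorem result :
    (fun n : ℕ => (lazyCopNumber (hypercube n) : ℝ)) =Θ[atTop]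
      (fun n : ℕ => (2 : ℝ) ^ n / (n : ℝ) ^ (3 / 2 : ℝ)) := by
  have hf : ∀ n : ℕ, 0 ≤ (2 : ℝ) ^ n / (n : ℝ) ^ (3 / 2 : ℝ) := fun n => by positivity
  constructor
  · apply IsBigO.of_bound 20
    filter_upwards [eventually_gt_atTop 0] with n hn
    obtain ⟨k, hk, hkb⟩ := upper_bound n hn
    have h1 : lazyCopNumber (hypercube n) ≤ k := Nat.sInf_le hk
    have h2 : (lazyCopNumber (hypercube n) : ℝ) ≤ k := by exact_mod_cast h1
    rw [Real.norm_of_nonneg (by positivity), Real.norm_of_nonneg (hf n)]
    calc (lazyCopNumber (hypercube n) : ℝ) ≤ k := h2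
      _ ≤ 20 * 2 ^ n / (n : ℝ) ^ (3 / 2 : ℝ) := hkb
      _ = 20 * (2 ^ n / (n : ℝ) ^ (3 / 2 : ℝ)) := by ring
  · obtain ⟨c, hc, n0, hlow⟩ := lower_bound
    apply IsBigO.of_bound (1 / c)
    filter_upwards [eventually_gt_atTop 0, eventually_ge_atTop n0] with n hn hn0
    have hne : {k | CopsWin (hypercube n) k}.Nonempty := by
      obtain ⟨k, hk, _⟩ := upper_bound n hn
      exact ⟨k, hk⟩
    have hmem : CopsWin (hypercube n) (lazyCopNumber (hypercube n)) := Nat.sInf_mem hne
    have h1 : ¬ ((lazyCopNumber (hypercube n) : ℝ) ≤ c * 2 ^ n / (n : ℝ) ^ (3 / 2 : ℝ)) :=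
      fun hcon => hlow n hn0 _ hcon hmem
    rw [not_le] at h1
    rw [Real.norm_of_nonneg (hf n), Real.norm_of_nonneg (Nat.cast_nonneg _)]
    have h2 : c * 2 ^ n / (n : ℝ) ^ (3 / 2 : ℝ) = c * (2 ^ n / (n : ℝ) ^ (3 / 2 : ℝ)) := by ring
    rw [h2] at h1
    rw [one_div, inv_mul_eq_div, le_div_iff₀ hc]
    linarith

end Pool.Agent.Results.MP_e22981_co.LazyCopOrder
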